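import Pool.Agent.R337.UE.Prox
import Pool.Agent.H107.MetricPi

/-!
Finitely many exceptional numbers are absorbed by the constant; the exceptional numbers near a point.
-/

set_option autoImplicit false

namespace Pool.Agent.U155.MV

open Polynomial IntermediateField IsDedekindDomain NumberField MeasureTheory
open Pool.Agent.W223.AC (pt tt lamF lamI mS lamF_nonneg lamI_nonneg)
open Pool.Agent.W223.AC.MR (height alpha exponent)
open Pool.Agent.R337.UE (exc exc_count prox prox_le sub_bound height_bound logdisc_nonneg height_unique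
  height_nonneg natDegree_unique)

/-- the inequality outside the exceptional set and at finitely many exceptional numbers -/
theorem absorb (A : Type) [CommRing A] [IsDedekindDomain A] [Algebra ℚ A] [Algebra ℚ[X] A]
    [IsScalarTower ℚ ℚ[X] A] [Module.Finite ℚ[X] A] [FaithfulSMul ℚ[X] A]
    (q : ℕ) (hq : 3 ≤ q) (a : Fin q → ℚ) (κ : ℝ) (u : Fin q → ℕ)
    (y : ∀ j, Fin (u j + 1) → A)
    (hy0 : ∀ j, y j 0 = tt A - algebraMap ℚ[X] A (C (a j)))
    (hyr : ∀ j i, y j i ∈ (Ideal.span {tt A - algebraMap ℚ[X] A (C (a j))}).radical)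
    (ε : ℝ) (hε : 0 < ε) (F : Set ℂ) (hF : F.Finite) :
    ∃ C₀ : ℝ, ∀ x : ℂ, (x ∉ exc a κ ∨ x ∈ F) → ∀ f : ℤ[X], Irreducible f → 2 ≤ f.natDegree →
      aeval x f = 0 → ∀ (L : IntermediateField ℚ ℂ) [NumberField L] (φ : A →+* L),
      (φ (tt A) : ℂ) = x →
      (∀ j, {v : HeightOneSpectrum (𝓞 L) | lamF (y j) φ v ≠ 0}.Finite) ∧
      ∀ S : Finset ℕ, (∀ p ∈ S, p.Prime) →
        (∑ j, (∑ w : InfinitePlace L, (w.mult : ℝ) * lamI (y j) φ w + mS S (y j) φ)) /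
            Module.finrank ℚ L +
          (q - (∑ j, (Module.finrank ℚ (A ⧸ Ideal.span (Set.range (y j))) : ℝ)) /
            Module.finrank ℚ[X] A - κ - ε) * height f ≤
        Real.log |(discr L : ℝ)| / Module.finrank ℚ L + ∑ p ∈ S, Real.log p + C₀ := by
  classical
  obtain ⟨C₁, hC₁⟩ := prox A q hq a κ u y hy0 hyr ε hε
  have hsb : ∀ (x : ℂ) (j : Fin q), ∃ c : ℝ, 0 ≤ c ∧ (IsIntegral ℚ x →
      ∀ (L : IntermediateField ℚ ℂ) [NumberField L] (ξ : L), (ξ : ℂ) = x →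
        Height.logHeight₁ (ξ - (a j : L)) ≤ Module.finrank ℚ L * c) := by
    intro x j
    by_cases hx : IsIntegral ℚ x
    · obtain ⟨c, hc, h⟩ := sub_bound x hx (a j)
      exact ⟨c, hc, fun _ => h⟩
    · exact ⟨0, le_rfl, fun h => absurd h hx⟩
  choose cs hcs0 hcs using hsb
  choose ch hch0 hch using height_bound
  obtain ⟨ν, hν⟩ : ∃ ν : ℝ, ν = (∑ j, (Module.finrank ℚ (A ⧸ Ideal.span (Set.range (y j))) : ℝ)) /
    Module.finrank ℚ[X] A := ⟨_, rfl⟩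
  rw [← hν] at hC₁ ⊢
  obtain ⟨cc₀, hcc₀⟩ : ∃ cc₀ : ℂ → ℝ, cc₀ = fun x =>
    ∑ j, cs x j + |(q : ℝ) - ν - κ - ε| * ch x := ⟨_, rfl⟩
  obtain ⟨B, hB⟩ := (hF.image cc₀).bddAbove
  refine ⟨max C₁ B, ?_⟩
  intro x hx f hf hd hfx L _ φ hφ
  rcases hx with hx | hx
  · obtain ⟨h1, h2⟩ := hC₁ x hx f hf hd hfx L φ hφ
    refine ⟨h1, fun S hS => (h2 S hS).trans ?_⟩
    have := le_max_left C₁ B
    linarith
  · have hxf := Pool.Agent.W223.AC.MR.aeval_L _ hφ f hfx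
    have hne := fun k => Pool.Agent.W223.AC.MR.ne_rat hd hf rfl hxf (a k)
    have hy : ∀ j, φ (y j 0) = φ (tt A) - (a j : L) := by
      intro j
      rw [hy0 j, map_sub]
      have : φ (algebraMap ℚ[X] A (Polynomial.C (a j))) = (a j : L) :=
        eq_ratCast (φ.comp ((algebraMap ℚ[X] A).comp Polynomial.C)) (a j)
      rw [this]
    have hz0 : ∀ l, φ (y l 0) ≠ 0 := by
      intro l
      rw [hy l]
      exact sub_ne_zero.mpr (hne l)
    have hfin := fun j => (prox_le ∅ (y j) φ (hz0 j)).1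
    refine ⟨hfin, ?_⟩
    intro S hS
    have hLpos : (0 : ℝ) < Module.finrank ℚ L := by exact_mod_cast Module.finrank_pos
    have hdL := logdisc_nonneg L
    have hS0 : 0 ≤ ∑ p ∈ S, Real.log (p : ℝ) :=
      Finset.sum_nonneg fun p _ => Real.log_natCast_nonneg p
    have hint : IsIntegral ℚ x := by
      have : IsAlgebraic ℚ x := by
        refine ⟨f.map (Int.castRingHom ℚ), ?_, ?_⟩
        · exact (Polynomial.map_ne_zero_iff (Int.cast_injective)).2 hf.ne_zero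
        · have h1 : (f.map (Int.castRingHom ℚ)) = f.map (algebraMap ℤ ℚ) := rfl
          rw [h1, aeval_map_algebraMap]
          exact hfx
      exact this.isIntegral
    have h1 : (∑ j, (∑ w : InfinitePlace L, (w.mult : ℝ) * lamI (y j) φ w + mS S (y j) φ)) /
        Module.finrank ℚ L ≤ ∑ j, cs x j := by
      rw [div_le_iff₀ hLpos, Finset.sum_mul]
      refine Finset.sum_le_sum fun j _ => ?_
      refine (prox_le S (y j) φ (hz0 j)).2.trans ?_
      rw [hy j, mul_comm]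
      exact hcs x j hint L (φ (tt A)) hφ
    have h2 : ((q : ℝ) - ν - κ - ε) * height f ≤ |(q : ℝ) - ν - κ - ε| * ch x := by
      have h3 := height_nonneg hf.ne_zero
      exact mul_le_mul (le_abs_self _) (hch x f hf hd hfx) h3 (abs_nonneg _)
    have h3 : cc₀ x ≤ B := hB ⟨x, hx, rfl⟩
    have h4 : cc₀ x = ∑ j, cs x j + |(q : ℝ) - ν - κ - ε| * ch x := by rw [hcc₀]
    have h5 : 0 ≤ Real.log |(discr L : ℝ)| / Module.finrank ℚ L := div_nonneg hdL hLpos.le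
    have h6 := le_max_right C₁ B
    linarith

open Classical in
/-- the height of an algebraic number of degree `r` -/
noncomputable def hh (r : ℕ) (x : ℂ) : ℝ :=
  if h : ∃ f : ℤ[X], Irreducible f ∧ f.natDegree = r ∧ aeval x f = 0 then
    Real.exp (height h.choose) else 1

lemma one_le_hh (r : ℕ) (x : ℂ) : 1 ≤ hh r x := by
  unfold hh
  split_ifs with h
  · exact Real.one_le_exp (height_nonneg h.choose_spec.1.ne_zero)
  · exact le_rfl

lemma hh_eq {r : ℕ} (hr : 2 ≤ r) {x : ℂ} {f : ℤ[X]} (hf : Irreducible f) (hd : f.natDegree = r)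
    (hx : aeval x f = 0) : hh r x = Real.exp (height f) := by
  unfold hh
  have h : ∃ f : ℤ[X], Irreducible f ∧ f.natDegree = r ∧ aeval x f = 0 := ⟨f, hf, hd, hx⟩
  rw [dif_pos h]
  obtain ⟨h1, h2, h3⟩ := h.choose_spec
  rw [height_unique h1 hf (by omega) (by omega) h3 hx]

/-- the exceptional numbers of degree `r` -/
def excr {q : ℕ} (a : Fin q → ℚ) (κ : ℝ) (r : ℕ) : Set ℂ :=
  {x | x ∈ exc a κ ∧ ∃ f : ℤ[X], Irreducible f ∧ f.natDegree = r ∧ aeval x f = 0}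

/-- the counting function in the form of the metric lemmas -/
theorem count {q : ℕ} (a : Fin q → ℚ) (κ : ℝ) {r : ℕ} (hr : 2 ≤ r) {e : ℝ}
    (h : ∀ δ : ℝ, 0 < δ → ∃ C : ℝ, ∀ B : ℝ, 1 ≤ B →
      {x : ℂ | x ∈ exc a κ ∧ ∃ f : ℤ[X], Irreducible f ∧ f.natDegree = r ∧ aeval x f = 0 ∧
        height f ≤ Real.log B}.Finite ∧
      (({x : ℂ | x ∈ exc a κ ∧ ∃ f : ℤ[X], Irreducible f ∧ f.natDegree = r ∧ aeval x f = 0 ∧
        height f ≤ Real.log B}.ncard : ℝ)) ≤ C * B ^ ((r : ℝ) * e + δ)) :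
    ∀ δ : ℝ, 0 < δ → ∃ C : ℝ, ∀ B : ℝ, 1 ≤ B →
      {t | t ∈ excr a κ r ∧ hh r t ≤ B}.Finite ∧
      ({t | t ∈ excr a κ r ∧ hh r t ≤ B}.ncard : ℝ) ≤ C * B ^ ((r : ℝ) * max e 0 + δ) := by
  intro δ hδ
  obtain ⟨C, hC⟩ := h δ hδ
  refine ⟨C, fun B hB => ?_⟩
  obtain ⟨h1, h2⟩ := hC B hB
  have hsub : {t | t ∈ excr a κ r ∧ hh r t ≤ B} ⊆
      {x : ℂ | x ∈ exc a κ ∧ ∃ f : ℤ[X], Irreducible f ∧ f.natDegree = r ∧ aeval x f = 0 ∧
        height f ≤ Real.log B} := by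
    rintro x ⟨⟨hx, f, hf, hd, hfx⟩, hB'⟩
    refine ⟨hx, f, hf, hd, hfx, ?_⟩
    rw [hh_eq hr hf hd hfx] at hB'
    rw [Real.le_log_iff_exp_le (by linarith)]
    exact hB'
  refine ⟨h1.subset hsub, ?_⟩
  have h3 : (({t | t ∈ excr a κ r ∧ hh r t ≤ B}.ncard : ℕ) : ℝ) ≤ C * B ^ ((r : ℝ) * e + δ) :=
    le_trans (by exact_mod_cast Set.ncard_le_ncard hsub h1) h2
  refine h3.trans ?_
  have hBp : 0 < B ^ ((r : ℝ) * e + δ) := Real.rpow_pos_of_pos (by linarith) _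
  have hC0 : 0 ≤ C := by
    have h4 : 0 ≤ C * B ^ ((r : ℝ) * e + δ) := (Nat.cast_nonneg _).trans h3
    by_contra h5
    push Not at h5
    have := mul_neg_of_neg_of_pos h5 hBp
    linarith
  refine mul_le_mul_of_nonneg_left (Real.rpow_le_rpow_of_exponent_le hB ?_) hC0
  have h6 : (r : ℝ) * e ≤ r * max e 0 := mul_le_mul_of_nonneg_left (le_max_left _ _) (Nat.cast_nonneg _)
  linarith

/-- the precision in terms of the height -/
lemma prec {r : ℕ} (hr : 2 ≤ r) {x : ℂ} {f : ℤ[X]} (hf : Irreducible f) (hd : f.natDegree = r)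
    (hx : aeval x f = 0) (w : ℝ) :
    (f.map (Int.castRingHom ℂ)).mahlerMeasure ^ (-w) = (hh r x) ^ (-(w * r)) := by
  rw [hh_eq hr hf hd hx]
  have hM : 0 < (f.map (Int.castRingHom ℂ)).mahlerMeasure :=
    lt_of_lt_of_le one_pos (Pool.Agent.H813R3.Voj.one_le_mahler hf.ne_zero)
  have hr0 : (r : ℝ) ≠ 0 := by
    have : r ≠ 0 := by omega
    exact_mod_cast this
  have h1 : height f = Real.log ((f.map (Int.castRingHom ℂ)).mahlerMeasure) / r := by
    unfold height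
    rw [hd]
  rw [h1, ← Real.exp_mul, Real.rpow_def_of_pos hM]
  congr 1
  field_simp

/-- near all points outside a set of small dimension there are finitely many exceptional numbers -/
theorem near_dim {q : ℕ} (a : Fin q → ℚ) (κ : ℝ) {r : ℕ} (hr : 2 ≤ r) {e : ℝ}
    (h : ∀ δ : ℝ, 0 < δ → ∃ C : ℝ, ∀ B : ℝ, 1 ≤ B →
      {x : ℂ | x ∈ exc a κ ∧ ∃ f : ℤ[X], Irreducible f ∧ f.natDegree = r ∧ aeval x f = 0 ∧
        height f ≤ Real.log B}.Finite ∧
      (({x : ℂ | x ∈ exc a κ ∧ ∃ f : ℤ[X], Irreducible f ∧ f.natDegree = r ∧ aeval x f = 0 ∧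
        height f ≤ Real.log B}.ncard : ℝ)) ≤ C * B ^ ((r : ℝ) * e + δ))
    {M : Type} [MetricSpace M] (ι : ℂ → M) {w : ℝ} (hw : 0 < w) :
    ∃ Z : Set M, dimH Z ≤ ENNReal.ofReal (max e 0 / w) ∧ ∀ ξ ∉ Z,
      {x | x ∈ exc a κ ∧ ∃ f : ℤ[X], Irreducible f ∧ f.natDegree = r ∧ aeval x f = 0 ∧
        dist (ι x) ξ ≤ (f.map (Int.castRingHom ℂ)).mahlerMeasure ^ (-w)}.Finite := by
  have hr0 : (0 : ℝ) < r := by
    have : 0 < r := by omega
    exact_mod_cast this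
  obtain ⟨Z, hZ, hZ2⟩ := Pool.Agent.H107.ME.dim_family (J := Unit) ι (hh r) (one_le_hh r)
    (s := r * max e 0) (σ := w * r) (by positivity) (by positivity) (fun _ => excr a κ r)
    (fun _ => count a κ hr h)
  refine ⟨Z, ?_, fun ξ hξ => ?_⟩
  · have h1 : (r : ℝ) * max e 0 / (w * r) = max e 0 / w := by
      field_simp
    rw [h1] at hZ
    exact hZ
  · refine (hZ2 ξ hξ ()).subset ?_
    rintro x ⟨hx, f, hf, hd, hfx, hdist⟩
    refine ⟨⟨hx, f, hf, hd, hfx⟩, ?_⟩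
    rw [prec hr hf hd hfx] at hdist
    exact hdist

/-- near almost all points of `ℝ ^ m` there are finitely many exceptional numbers -/
theorem near_ae {q : ℕ} (a : Fin q → ℚ) (κ : ℝ) {r : ℕ} (hr : 2 ≤ r) {e : ℝ}
    (h : ∀ δ : ℝ, 0 < δ → ∃ C : ℝ, ∀ B : ℝ, 1 ≤ B →
      {x : ℂ | x ∈ exc a κ ∧ ∃ f : ℤ[X], Irreducible f ∧ f.natDegree = r ∧ aeval x f = 0 ∧
        height f ≤ Real.log B}.Finite ∧
      (({x : ℂ | x ∈ exc a κ ∧ ∃ f : ℤ[X], Irreducible f ∧ f.natDegree = r ∧ aeval x f = 0 ∧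
        height f ≤ Real.log B}.ncard : ℝ)) ≤ C * B ^ ((r : ℝ) * e + δ))
    {m : ℕ} (hm : 0 < m) (ι : ℂ → Fin m → ℝ) :
    ∀ᵐ ξ : Fin m → ℝ, ∀ w : ℝ, max e 0 / m < w →
      {x | x ∈ exc a κ ∧ ∃ f : ℤ[X], Irreducible f ∧ f.natDegree = r ∧ aeval x f = 0 ∧
        ∀ i, |ι x i - ξ i| ≤ (f.map (Int.castRingHom ℂ)).mahlerMeasure ^ (-w)}.Finite := by
  have hr0 : (0 : ℝ) < r := by
    have : 0 < r := by omega
    exact_mod_cast this
  have : Nonempty (Fin m) := ⟨⟨0, hm⟩⟩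
  have key := Pool.Agent.H107.ME.ae_family_pi (J := Unit) ι (hh r) (one_le_hh r)
    (s := r * max e 0) (by positivity) (fun _ => excr a κ r)
    (fun _ => count a κ hr h)
  filter_upwards [key] with ξ hξ w hw
  have h1 : (r : ℝ) * max e 0 / Fintype.card (Fin m) < w * r := by
    rw [Fintype.card_fin, mul_div_assoc, mul_comm]
    exact mul_lt_mul_of_pos_right hw hr0
  refine (hξ (w * r) h1 ()).subset ?_
  rintro x ⟨hx, f, hf, hd, hfx, hdist⟩
  refine ⟨⟨hx, f, hf, hd, hfx⟩, fun i => ?_⟩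
  have h2 := hdist i
  rw [prec hr hf hd hfx] at h2
  exact h2

/-- near almost all real numbers -/
theorem near_re {q : ℕ} (a : Fin q → ℚ) (κ : ℝ) {r : ℕ} (hr : 2 ≤ r) {e : ℝ}
    (h : ∀ δ : ℝ, 0 < δ → ∃ C : ℝ, ∀ B : ℝ, 1 ≤ B →
      {x : ℂ | x ∈ exc a κ ∧ ∃ f : ℤ[X], Irreducible f ∧ f.natDegree = r ∧ aeval x f = 0 ∧
        height f ≤ Real.log B}.Finite ∧
      (({x : ℂ | x ∈ exc a κ ∧ ∃ f : ℤ[X], Irreducible f ∧ f.natDegree = r ∧ aeval x f = 0 ∧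
        height f ≤ Real.log B}.ncard : ℝ)) ≤ C * B ^ ((r : ℝ) * e + δ)) :
    ∀ᵐ ξ : ℝ, ∀ w : ℝ, max e 0 < w →
      {x | x ∈ exc a κ ∧ ∃ f : ℤ[X], Irreducible f ∧ f.natDegree = r ∧ aeval x f = 0 ∧
        ‖x - (ξ : ℂ)‖ ≤ (f.map (Int.castRingHom ℂ)).mahlerMeasure ^ (-w)}.Finite := by
  have hr0 : (0 : ℝ) < r := by
    have : 0 < r := by omega
    exact_mod_cast this
  have key := Pool.Agent.H107.ME.ae_family (J := Unit) Complex.re (hh r) (one_le_hh r)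
    (s := r * max e 0) (by positivity) (fun _ => excr a κ r)
    (fun _ => count a κ hr h)
  filter_upwards [key] with ξ hξ w hw
  have h1 : (r : ℝ) * max e 0 < w * r := by
    rw [mul_comm]
    exact mul_lt_mul_of_pos_right hw hr0
  refine (hξ (w * r) h1 ()).subset ?_
  rintro x ⟨hx, f, hf, hd, hfx, hdist⟩
  refine ⟨⟨hx, f, hf, hd, hfx⟩, ?_⟩
  rw [prec hr hf hd hfx] at hdist
  refine le_trans ?_ hdist
  have h2 := Complex.abs_re_le_norm (x - (ξ : ℂ))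
  rwa [Complex.sub_re, Complex.ofReal_re] at h2

/-- near almost all complex numbers -/
theorem near_im {q : ℕ} (a : Fin q → ℚ) (κ : ℝ) {r : ℕ} (hr : 2 ≤ r) {e : ℝ}
    (h : ∀ δ : ℝ, 0 < δ → ∃ C : ℝ, ∀ B : ℝ, 1 ≤ B →
      {x : ℂ | x ∈ exc a κ ∧ ∃ f : ℤ[X], Irreducible f ∧ f.natDegree = r ∧ aeval x f = 0 ∧
        height f ≤ Real.log B}.Finite ∧
      (({x : ℂ | x ∈ exc a κ ∧ ∃ f : ℤ[X], Irreducible f ∧ f.natDegree = r ∧ aeval x f = 0 ∧
        height f ≤ Real.log B}.ncard : ℝ)) ≤ C * B ^ ((r : ℝ) * e + δ)) :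
    ∀ᵐ ξ : ℂ, ∀ w : ℝ, max e 0 / 2 < w →
      {x | x ∈ exc a κ ∧ ∃ f : ℤ[X], Irreducible f ∧ f.natDegree = r ∧ aeval x f = 0 ∧
        ‖x - ξ‖ ≤ (f.map (Int.castRingHom ℂ)).mahlerMeasure ^ (-w)}.Finite := by
  have key := near_ae a κ hr h (m := 2) two_pos (fun x => ![x.re, x.im])
  have key2 := Complex.volume_preserving_equiv_pi.quasiMeasurePreserving.ae key
  filter_upwards [key2] with ξ hξ w hw
  have h1 : max e 0 / ((2 : ℕ) : ℝ) < w := by
    norm_num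
    exact hw
  refine (hξ w h1).subset ?_
  rintro x ⟨hx, f, hf, hd, hfx, hdist⟩
  refine ⟨hx, f, hf, hd, hfx, fun i => ?_⟩
  refine le_trans ?_ hdist
  fin_cases i
  · have h2 := Complex.abs_re_le_norm (x - ξ)
    rw [Complex.sub_re] at h2
    exact h2
  · have h2 := Complex.abs_im_le_norm (x - ξ)
    rw [Complex.sub_im] at h2
    exact h2

end Pool.Agent.U155.MV
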