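import Pool.Agent.R337.UE.Line
import Pool.Agent.H107.MetricPi

/-!
Sparse sets of algebraic numbers of degree `r` near a typical point.
-/

set_option autoImplicit false

namespace Pool.Agent.U155.MV.G

open Polynomial MeasureTheory
open Pool.Agent.W223.AC.MR (height)
open Pool.Agent.R337.UE (height_unique height_nonneg)

/-- `x` is of degree `r`, a root of the irreducible `f` -/
def Rt (r : ℕ) (x : ℂ) (f : ℤ[X]) : Prop :=
  Irreducible f ∧ f.natDegree = r ∧ aeval x f = 0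

open Classical in
/-- the height of an algebraic number of degree `r` -/
noncomputable def hh (r : ℕ) (x : ℂ) : ℝ :=
  if h : ∃ f : ℤ[X], Rt r x f then Real.exp (height h.choose) else 1

lemma one_le_hh (r : ℕ) (x : ℂ) : 1 ≤ hh r x := by
  unfold hh
  split_ifs with h
  · exact Real.one_le_exp (height_nonneg h.choose_spec.1.ne_zero)
  · exact le_rfl

lemma hh_eq {r : ℕ} (hr : 2 ≤ r) {x : ℂ} {f : ℤ[X]} (hf : Rt r x f) :
    hh r x = Real.exp (height f) := by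
  unfold hh
  have h : ∃ f : ℤ[X], Rt r x f := ⟨f, hf⟩
  rw [dif_pos h]
  obtain ⟨h1, h2, h3⟩ := h.choose_spec
  obtain ⟨g1, g2, g3⟩ := hf
  rw [height_unique h1 g1 (by omega) (by omega) h3 g3]

lemma prec {r : ℕ} (hr : 2 ≤ r) {x : ℂ} {f : ℤ[X]} (hf : Rt r x f) (w : ℝ) :
    (f.map (Int.castRingHom ℂ)).mahlerMeasure ^ (-w) = (hh r x) ^ (-(w * r)) := by
  rw [hh_eq hr hf]
  have hM : 0 < (f.map (Int.castRingHom ℂ)).mahlerMeasure :=
    lt_of_lt_of_le one_pos (Pool.Agent.H813R3.Voj.one_le_mahler hf.1.ne_zero)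
  have hr0 : (r : ℝ) ≠ 0 := by
    have : r ≠ 0 := by omega
    exact_mod_cast this
  have h1 : height f = Real.log ((f.map (Int.castRingHom ℂ)).mahlerMeasure) / r := by
    unfold height
    rw [hf.2.1]
  rw [h1, ← Real.exp_mul, Real.rpow_def_of_pos hM]
  congr 1
  field_simp

/-- `E` contains at most `C B ^ (r s + δ)` numbers of degree `r` and height at most `log B` -/
def Sparse (r : ℕ) (s : ℝ) (E : Set ℂ) : Prop :=
  ∀ δ : ℝ, 0 < δ → ∃ C : ℝ, ∀ B : ℝ, 1 ≤ B → ∃ T : Finset ℂ,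
    (T.card : ℝ) ≤ C * B ^ ((r : ℝ) * s + δ) ∧
    ∀ x ∈ E, ∀ f : ℤ[X], Rt r x f → height f ≤ Real.log B → x ∈ T

lemma count {r : ℕ} (hr : 2 ≤ r) {s : ℝ} {E : Set ℂ} (h : Sparse r s E) :
    ∀ δ : ℝ, 0 < δ → ∃ C : ℝ, ∀ B : ℝ, 1 ≤ B →
      {t | t ∈ {x | x ∈ E ∧ ∃ f, Rt r x f} ∧ hh r t ≤ B}.Finite ∧
      ({t | t ∈ {x | x ∈ E ∧ ∃ f, Rt r x f} ∧ hh r t ≤ B}.ncard : ℝ) ≤
        C * B ^ ((r : ℝ) * s + δ) := by
  intro δ hδ
  obtain ⟨C, hC⟩ := h δ hδ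
  refine ⟨C, fun B hB => ?_⟩
  obtain ⟨T, hT, hT2⟩ := hC B hB
  have hsub : {t | t ∈ {x | x ∈ E ∧ ∃ f, Rt r x f} ∧ hh r t ≤ B} ⊆ (T : Set ℂ) := by
    rintro x ⟨⟨hx, f, hf⟩, hB'⟩
    refine hT2 x hx f hf ?_
    rw [hh_eq hr hf] at hB'
    rw [Real.le_log_iff_exp_le (by linarith)]
    exact hB'
  refine ⟨T.finite_toSet.subset hsub, le_trans ?_ hT⟩
  have h1 := Set.ncard_le_ncard hsub T.finite_toSet
  rw [Set.ncard_coe_finset] at h1
  exact_mod_cast h1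

/-- near all points outside a set of small dimension -/
theorem near_dim {r : ℕ} (hr : 2 ≤ r) {s : ℝ} (hs : 0 ≤ s) {E : Set ℂ} (h : Sparse r s E)
    {M : Type} [MetricSpace M] (ι : ℂ → M) {w : ℝ} (hw : 0 < w) :
    ∃ Z : Set M, dimH Z ≤ ENNReal.ofReal (s / w) ∧ ∀ ξ ∉ Z,
      {x | x ∈ E ∧ ∃ f : ℤ[X], Rt r x f ∧
        dist (ι x) ξ ≤ (f.map (Int.castRingHom ℂ)).mahlerMeasure ^ (-w)}.Finite := by
  have hr0 : (0 : ℝ) < r := by
    have : 0 < r := by omega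
    exact_mod_cast this
  obtain ⟨Z, hZ, hZ2⟩ := Pool.Agent.H107.ME.dim_family (J := Unit) ι (hh r) (one_le_hh r)
    (s := r * s) (σ := w * r) (by positivity) (by positivity)
    (fun _ => {x | x ∈ E ∧ ∃ f, Rt r x f}) (fun _ => count hr h)
  refine ⟨Z, ?_, fun ξ hξ => ?_⟩
  · have h1 : (r : ℝ) * s / (w * r) = s / w := by
      field_simp
    rw [h1] at hZ
    exact hZ
  · refine (hZ2 ξ hξ ()).subset ?_
    rintro x ⟨hx, f, hf, hdist⟩
    refine ⟨⟨hx, f, hf⟩, ?_⟩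
    rw [prec hr hf] at hdist
    exact hdist

/-- near almost all points of `ℝ ^ m` -/
theorem near_ae {r : ℕ} (hr : 2 ≤ r) {s : ℝ} (hs : 0 ≤ s) {E : Set ℂ} (h : Sparse r s E)
    {m : ℕ} (hm : 0 < m) (ι : ℂ → Fin m → ℝ) :
    ∀ᵐ ξ : Fin m → ℝ, ∀ w : ℝ, s / m < w →
      {x | x ∈ E ∧ ∃ f : ℤ[X], Rt r x f ∧
        ∀ i, |ι x i - ξ i| ≤ (f.map (Int.castRingHom ℂ)).mahlerMeasure ^ (-w)}.Finite := by
  have hr0 : (0 : ℝ) < r := by
    have : 0 < r := by omega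
    exact_mod_cast this
  have : Nonempty (Fin m) := ⟨⟨0, hm⟩⟩
  have key := Pool.Agent.H107.ME.ae_family_pi (J := Unit) ι (hh r) (one_le_hh r)
    (s := r * s) (by positivity) (fun _ => {x | x ∈ E ∧ ∃ f, Rt r x f}) (fun _ => count hr h)
  filter_upwards [key] with ξ hξ w hw
  have h1 : (r : ℝ) * s / Fintype.card (Fin m) < w * r := by
    rw [Fintype.card_fin, mul_div_assoc, mul_comm]
    exact mul_lt_mul_of_pos_right hw hr0
  refine (hξ (w * r) h1 ()).subset ?_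
  rintro x ⟨hx, f, hf, hdist⟩
  refine ⟨⟨hx, f, hf⟩, fun i => ?_⟩
  have h2 := hdist i
  rw [prec hr hf] at h2
  exact h2

/-- near almost all real numbers -/
theorem near_re {r : ℕ} (hr : 2 ≤ r) {s : ℝ} (hs : 0 ≤ s) {E : Set ℂ} (h : Sparse r s E) :
    ∀ᵐ ξ : ℝ, ∀ w : ℝ, s < w →
      {x | x ∈ E ∧ ∃ f : ℤ[X], Rt r x f ∧
        ‖x - (ξ : ℂ)‖ ≤ (f.map (Int.castRingHom ℂ)).mahlerMeasure ^ (-w)}.Finite := by
  have hr0 : (0 : ℝ) < r := by
    have : 0 < r := by omega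
    exact_mod_cast this
  have key := Pool.Agent.H107.ME.ae_family (J := Unit) Complex.re (hh r) (one_le_hh r)
    (s := r * s) (by positivity) (fun _ => {x | x ∈ E ∧ ∃ f, Rt r x f}) (fun _ => count hr h)
  filter_upwards [key] with ξ hξ w hw
  have h1 : (r : ℝ) * s < w * r := by
    rw [mul_comm]
    exact mul_lt_mul_of_pos_right hw hr0
  refine (hξ (w * r) h1 ()).subset ?_
  rintro x ⟨hx, f, hf, hdist⟩
  refine ⟨⟨hx, f, hf⟩, ?_⟩
  rw [prec hr hf] at hdist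
  refine le_trans ?_ hdist
  have h2 := Complex.abs_re_le_norm (x - (ξ : ℂ))
  rwa [Complex.sub_re, Complex.ofReal_re] at h2

/-- near almost all complex numbers -/
theorem near_im {r : ℕ} (hr : 2 ≤ r) {s : ℝ} (hs : 0 ≤ s) {E : Set ℂ} (h : Sparse r s E) :
    ∀ᵐ ξ : ℂ, ∀ w : ℝ, s / 2 < w →
      {x | x ∈ E ∧ ∃ f : ℤ[X], Rt r x f ∧
        ‖x - ξ‖ ≤ (f.map (Int.castRingHom ℂ)).mahlerMeasure ^ (-w)}.Finite := by
  have key := near_ae hr hs h (m := 2) two_pos (fun x => ![x.re, x.im])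
  have key2 := Complex.volume_preserving_equiv_pi.quasiMeasurePreserving.ae key
  filter_upwards [key2] with ξ hξ w hw
  have h1 : s / ((2 : ℕ) : ℝ) < w := by
    norm_num
    exact hw
  refine (hξ w h1).subset ?_
  rintro x ⟨hx, f, hf, hdist⟩
  refine ⟨hx, f, hf, fun i => ?_⟩
  refine le_trans ?_ hdist
  fin_cases i
  · have h2 := Complex.abs_re_le_norm (x - ξ)
    rw [Complex.sub_re] at h2
    exact h2
  · have h2 := Complex.abs_im_le_norm (x - ξ)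
    rw [Complex.sub_im] at h2
    exact h2

end Pool.Agent.U155.MV.G
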